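import Pool.Agent.H91.FP7

set_option autoImplicit false

open H91FS in
theorem Pool.Agent.Results.MP_f16f70_an.StateNotIso.result :
   
    ∀ (A : Type) [CStarAlgebra A] [Nontrivial A] (s : ℕ → A), H91FP.CuntzGen s →
      ∃ σ : A →ₗ[ℂ] ℂ, H91FP.IsState σ ∧
        ∀ (D : Type) [CStarAlgebra D] (ρ : D →ₗ[ℂ] ℂ) (π : ℕ → A →⋆ₐ[ℂ] D),
          H91FP.FreePow σ ρ π →
          ∀ (E : Type) [CStarAlgebra E] (τ : E →ₗ[ℂ] ℂ) (i : C(unitInterval, ℂ) →⋆ₐ[ℂ] E)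
            (j : D →⋆ₐ[ℂ] E), H91FQ.FreeProd (fun f => ∫ t, f t) ρ τ i j →
            ¬ ∃ θ : E ≃⋆ₐ[ℂ] D, ∀ x, ρ (θ x) = τ x :=
  main
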